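import Mathlib

/-! Project ZT (helper387), task ZT-C2a (helper134): determinants of polynomials acting on
finite-dimensional modules. -/

set_option autoImplicit false
set_option maxHeartbeats 4000000

open Polynomial Matrix

namespace Pool.Agent.H134R3.ZT

noncomputable section

section DM

variable {R k : Type*} [Semiring R] [CommRing k] {ι : Type*} [Fintype ι] [DecidableEq ι]

/-- the polynomial matrix -/
def PM (f : R →+* Matrix ι ι k) (w : R[X]) : Matrix ι ι k[X] := matPolyEquiv.symm (w.map f)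

/-- the determinant of the polynomial matrix -/
def DM (f : R →+* Matrix ι ι k) (w : R[X]) : k[X] := (matPolyEquiv.symm (w.map f)).det

theorem DM_def (f : R →+* Matrix ι ι k) (w : R[X]) : DM f w = (PM f w).det := rfl

theorem PM_coeff (f : R →+* Matrix ι ι k) (w : R[X]) (i j : ι) (n : ℕ) :
    (PM f w i j).coeff n = f (w.coeff n) i j := by
  rw [PM, matPolyEquiv_symm_apply_coeff, coeff_map]

theorem PM_mul (f : R →+* Matrix ι ι k) (w w' : R[X]) : PM f (w * w') = PM f w * PM f w' := by
  rw [PM, Polynomial.map_mul, map_mul]; rfl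

theorem DM_mul (f : R →+* Matrix ι ι k) (w w' : R[X]) : DM f (w * w') = DM f w * DM f w' := by
  rw [DM_def, PM_mul, det_mul]; rfl

theorem DM_one (f : R →+* Matrix ι ι k) : DM f 1 = 1 := by
  rw [DM, Polynomial.map_one, map_one, det_one]

theorem DM_comp {S : Type*} [Semiring S] (f : R →+* Matrix ι ι k) (g : S →+* R) (w : S[X]) :
    DM (f.comp g) w = DM f (w.map g) := by
  rw [DM, DM, Polynomial.map_map]

theorem DM_map {k' : Type*} [CommRing k'] (φ : k →+* k') (f : R →+* Matrix ι ι k) (w : R[X]) :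
    (DM f w).map φ = DM (φ.mapMatrix.comp f) w := by
  rw [DM_def, DM_def, ← coe_mapRingHom, RingHom.map_det]
  congr 1
  ext i j n
  rw [PM_coeff, RingHom.mapMatrix_apply, Matrix.map_apply, coe_mapRingHom, coeff_map, PM_coeff]
  rfl

theorem DM_conj {κ : Type*} [Fintype κ] [DecidableEq κ] (f : R →+* Matrix ι ι k)
    (g : R →+* Matrix κ κ k) (P : Matrix κ ι k) (Q : Matrix ι κ k) (h1 : P * Q = 1) (h2 : Q * P = 1)
    (h : ∀ a, g a = P * f a * Q) (w : R[X]) : DM g w = DM f w := by
  rw [DM_def, DM_def]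
  have e : PM g w = P.map C * PM f w * Q.map C := by
    ext i j n
    rw [PM_coeff, h, Matrix.mul_apply, Matrix.mul_apply, finsetSum_coeff]
    refine Finset.sum_congr rfl fun l _ => ?_
    rw [Matrix.mul_apply, Matrix.mul_apply, Matrix.map_apply, coeff_mul_C, finsetSum_coeff]
    congr 1
    refine Finset.sum_congr rfl fun l' _ => ?_
    rw [Matrix.map_apply, coeff_C_mul, PM_coeff]
  rw [e]
  refine det_conj_of_mul_eq_one ?_ ?_
  · rw [← Matrix.map_mul, h1]
    exact Matrix.map_one _ (map_zero _) (map_one _)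
  · rw [← Matrix.map_mul, h2]
    exact Matrix.map_one _ (map_zero _) (map_one _)

theorem DM_block {κ : Type*} [Fintype κ] [DecidableEq κ] (f : R →+* Matrix ι ι k)
    (g : R →+* Matrix κ κ k) (h : R →+* Matrix (ι ⊕ κ) (ι ⊕ κ) k)
    (h11 : ∀ a i j, h a (Sum.inl i) (Sum.inl j) = f a i j)
    (h21 : ∀ a i j, h a (Sum.inr i) (Sum.inl j) = 0)
    (h22 : ∀ a i j, h a (Sum.inr i) (Sum.inr j) = g a i j) (w : R[X]) :
    DM h w = DM f w * DM g w := by
  rw [DM_def, DM_def, DM_def]
  have e : PM h w = fromBlocks (PM f w) (PM h w).toBlocks₁₂ 0 (PM g w) := by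
    ext i j n
    rcases i with i | i <;> rcases j with j | j
    · rw [PM_coeff, h11, fromBlocks_apply₁₁, PM_coeff]
    · rw [fromBlocks_apply₁₂]; rfl
    · rw [PM_coeff, h21, fromBlocks_apply₂₁]; simp
    · rw [PM_coeff, h22, fromBlocks_apply₂₂, PM_coeff]
  rw [e, det_fromBlocks_zero₂₁]

end DM

section DB

variable {R k : Type*} [Semiring R] [CommRing k] {ι : Type*} [Fintype ι] [DecidableEq ι]
variable {V : Type*} [AddCommGroup V] [Module k V]

/-- the determinant with respect to a basis, for an action on a module -/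
def DB (b : Module.Basis ι k V) (ρ : R →+* Module.End k V) (w : R[X]) : k[X] :=
  DM ((LinearMap.toMatrixAlgEquiv b).toRingEquiv.toRingHom.comp ρ) w

theorem DB_transport {κ : Type*} [Fintype κ] [DecidableEq κ] {V' : Type*} [AddCommGroup V']
    [Module k V'] (b : Module.Basis ι k V) (b' : Module.Basis κ k V')
    (ρ : R →+* Module.End k V) (ρ' : R →+* Module.End k V') (e : V ≃ₗ[k] V')
    (h : ∀ a v, e (ρ a v) = ρ' a (e v)) (w : R[X]) : DB b ρ w = DB b' ρ' w := by
  symm
  refine DM_conj _ _ (LinearMap.toMatrix b b' e.toLinearMap)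
    (LinearMap.toMatrix b' b e.symm.toLinearMap) ?_ ?_ ?_ w
  · rw [← LinearMap.toMatrix_comp]
    rw [LinearEquiv.comp_symm]
    exact LinearMap.toMatrix_id b'
  · rw [← LinearMap.toMatrix_comp]
    rw [LinearEquiv.symm_comp]
    exact LinearMap.toMatrix_id b
  · intro a
    show LinearMap.toMatrix b' b' (ρ' a) = _ * LinearMap.toMatrix b b (ρ a) * _
    rw [← LinearMap.toMatrix_comp, ← LinearMap.toMatrix_comp]
    congr 1
    ext v
    simp [h]

theorem DB_basis {κ : Type*} [Fintype κ] [DecidableEq κ] (b : Module.Basis ι k V)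
    (b' : Module.Basis κ k V) (ρ : R →+* Module.End k V) (w : R[X]) : DB b ρ w = DB b' ρ w :=
  DB_transport b b' ρ ρ (LinearEquiv.refl k V) (fun _ _ => rfl) w

theorem DB_exact {ι' : Type*} [Fintype ι'] [DecidableEq ι'] {ι'' : Type*} [Fintype ι'']
    [DecidableEq ι''] {V' V'' : Type*} [AddCommGroup V'] [Module k V'] [AddCommGroup V'']
    [Module k V''] (b : Module.Basis ι k V) (b' : Module.Basis ι' k V')
    (b'' : Module.Basis ι'' k V'') (ρ : R →+* Module.End k V) (ρ' : R →+* Module.End k V')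
    (ρ'' : R →+* Module.End k V'') (i : V' →ₗ[k] V) (π : V →ₗ[k] V'')
    (hi : Function.Injective i) (hπ : Function.Surjective π) (hex : ∀ v, π v = 0 ↔ ∃ u, i u = v)
    (h1 : ∀ a v, i (ρ' a v) = ρ a (i v)) (h2 : ∀ a v, π (ρ a v) = ρ'' a (π v)) (w : R[X]) :
    DB b ρ w = DB b' ρ' w * DB b'' ρ'' w := by
  -- a section
  have : Module.Free k V'' := Module.Free.of_basis b''
  obtain ⟨s, hs⟩ := Module.projective_lifting_property π LinearMap.id hπ
  have hs' : ∀ v, π (s v) = v := fun v => LinearMap.congr_fun hs v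
  have hπi : ∀ u, π (i u) = 0 := fun u => (hex _).2 ⟨u, rfl⟩
  let F : (V' × V'') →ₗ[k] V := LinearMap.coprod i s
  have hF : ∀ x, F x = i x.1 + s x.2 := fun x => rfl
  have hFinj : Function.Injective F := by
    rw [← LinearMap.ker_eq_bot, LinearMap.ker_eq_bot']
    rintro ⟨x, y⟩ hxy
    rw [hF] at hxy
    have hy : y = 0 := by
      have := congrArg π hxy
      rwa [map_add, hπi, hs', zero_add, map_zero] at this
    subst hy
    simp only [map_zero, add_zero] at hxy
    rw [← map_zero i] at hxy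
    rw [hi hxy]; rfl
  have hFsurj : Function.Surjective F := by
    intro v
    obtain ⟨u, hu⟩ := (hex (v - s (π v))).1 (by rw [map_sub, hs', sub_self])
    exact ⟨(u, π v), by rw [hF, hu]; simp⟩
  let e : (V' × V'') ≃ₗ[k] V := LinearEquiv.ofBijective F ⟨hFinj, hFsurj⟩
  have he : ∀ x, e x = i x.1 + s x.2 := fun x => rfl
  have hπe : ∀ v, (e.symm v).2 = π v := by
    intro v
    obtain ⟨x, rfl⟩ := e.surjective v
    rw [e.symm_apply_apply, he, map_add, hπi, hs', zero_add]
  have hei : ∀ u, e.symm (i u) = (u, 0) := by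
    intro u
    rw [LinearEquiv.symm_apply_eq, he]; simp
  let B : Module.Basis (ι' ⊕ ι'') k V := (b'.prod b'').map e
  rw [DB_basis b B]
  refine DM_block _ _ _ ?_ ?_ ?_ w
  · intro a p q
    show LinearMap.toMatrix B B (ρ a) (Sum.inl p) (Sum.inl q) =
      LinearMap.toMatrix b' b' (ρ' a) p q
    rw [LinearMap.toMatrix_apply, LinearMap.toMatrix_apply]
    have hB : B (Sum.inl q) = i (b' q) := by
      simp [B, he]
    rw [hB, ← h1]
    simp [B, hei]
  · intro a p q
    show LinearMap.toMatrix B B (ρ a) (Sum.inr p) (Sum.inl q) = 0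
    rw [LinearMap.toMatrix_apply]
    have hB : B (Sum.inl q) = i (b' q) := by
      simp [B, he]
    rw [hB, ← h1]
    simp [B, hei]
  · intro a p q
    show LinearMap.toMatrix B B (ρ a) (Sum.inr p) (Sum.inr q) =
      LinearMap.toMatrix b'' b'' (ρ'' a) p q
    rw [LinearMap.toMatrix_apply, LinearMap.toMatrix_apply]
    have hB : B (Sum.inr q) = s (b'' q) := by
      simp [B, he]
    rw [hB]
    simp [B, hπe, h2, hs']

end DB

section DA

variable (k : Type*) {A : Type*} [CommRing k] [CommRing A] [Algebra k A]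

open Classical in
/-- the determinant of a polynomial acting on a finite free algebra -/
def DA [Module.Free k A] [Module.Finite k A] (w : A[X]) : k[X] :=
  DM (Algebra.leftMulMatrix (Module.Free.chooseBasis k A)).toRingHom w

theorem DA_eq [Module.Free k A] [Module.Finite k A] {ι : Type*} [Fintype ι] [DecidableEq ι]
    (b : Module.Basis ι k A) (w : A[X]) : DA k w = DM (Algebra.leftMulMatrix b).toRingHom w := by
  classical
  exact DB_basis _ b (Algebra.lmul k A).toRingHom w

theorem DA_equiv [Module.Free k A] [Module.Finite k A] {A' : Type*} [CommRing A'] [Algebra k A']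
    [Module.Free k A'] [Module.Finite k A'] (e : A ≃ₐ[k] A') (w : A[X]) :
    DA k (w.map (e : A →+* A')) = DA k w := by
  classical
  have h1 : DA k (w.map (e : A →+* A')) = DB (Module.Free.chooseBasis k A')
      ((Algebra.lmul k A').toRingHom.comp (e : A →+* A')) w := by
    rw [DA, ← DM_comp]; rfl
  rw [h1]
  symm
  exact DB_transport (Module.Free.chooseBasis k A) (Module.Free.chooseBasis k A')
    (Algebra.lmul k A).toRingHom ((Algebra.lmul k A').toRingHom.comp (e : A →+* A'))
    e.toLinearEquiv (fun a v => map_mul e a v) w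

theorem DA_base_change {k' A' : Type*} [CommRing k'] [CommRing A'] [Algebra k' A']
    [Module.Free k A] [Module.Finite k A] [Module.Free k' A'] [Module.Finite k' A']
    {ι : Type*} [Finite ι] (b : Module.Basis ι k A) (b' : Module.Basis ι k' A')
    (φ : k →+* k') (ψ : A →+* A') (h : ∀ x, ψ (algebraMap k A x) = algebraMap k' A' (φ x))
    (hb : ∀ i, ψ (b i) = b' i) (w : A[X]) : (DA k w).map φ = DA k' (w.map ψ) := by
  classical
  have := Fintype.ofFinite ι
  rw [DA_eq k b, DA_eq k' b', DM_map, ← DM_comp]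
  congr 1
  ext x i j
  show φ (Algebra.leftMulMatrix b x i j) = Algebra.leftMulMatrix b' (ψ x) i j
  rw [Algebra.leftMulMatrix_apply, Algebra.leftMulMatrix_apply, LinearMap.toMatrix_apply,
    LinearMap.toMatrix_apply]
  show φ (b.repr (x * b j) i) = b'.repr (ψ x * b' j) i
  have e : ψ x * b' j = ∑ l, φ (b.repr (x * b j) l) • b' l := by
    rw [← hb, ← map_mul]
    conv_lhs => rw [← b.sum_repr (x * b j)]
    rw [map_sum]
    refine Finset.sum_congr rfl fun l _ => ?_
    rw [Algebra.smul_def, map_mul, h, hb, Algebra.smul_def]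
  rw [e, b'.repr_sum_self]

theorem DA_emb {L E ι : Type*} {k : Type*} [Field k] [Field L] [Field E] [Algebra k L] [Algebra k E]
    [FiniteDimensional k L] [Fintype ι] (b : Module.Basis ι k L) (e : ι ≃ (L →ₐ[k] E)) (w : L[X]) :
    (DA k w).map (algebraMap k E) = ∏ i, w.map (e i : L →+* E) := by
  classical
  rw [DA_eq k b]
  -- the matrix of embeddings
  let P : Matrix ι ι E := Matrix.of fun i j => e i (b j)
  have hP : P.det ≠ 0 := by
    intro h0
    obtain ⟨c, hc, hcP⟩ := Matrix.exists_vecMul_eq_zero_iff.2 h0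
    have hli := (linearIndependent_toLinearMap k L E).comp e e.injective
    rw [Fintype.linearIndependent_iff] at hli
    apply hc
    funext i
    refine hli c ?_ i
    refine b.ext fun j => ?_
    rw [LinearMap.sum_apply, LinearMap.zero_apply]
    have := congrFun hcP j
    simpa [Matrix.vecMul, dotProduct, P] using this
  have hP' : (P.map C).det ≠ 0 := by
    have : (P.map C).det = C P.det := by
      rw [RingHom.map_det]; rfl
    rw [this]
    exact C_ne_zero.2 hP
  have key : P.map C * PM ((algebraMap k E).mapMatrix.comp (Algebra.leftMulMatrix b).toRingHom) w =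
      Matrix.diagonal (fun i => w.map (e i : L →+* E)) * P.map C := by
    ext i j n
    rw [Matrix.mul_apply, Matrix.diagonal_mul, finsetSum_coeff, Matrix.map_apply, coeff_mul_C,
      coeff_map]
    have : ∀ l, (P.map C i l * PM ((algebraMap k E).mapMatrix.comp
        (Algebra.leftMulMatrix b).toRingHom) w l j).coeff n =
        e i (b l) * algebraMap k E (Algebra.leftMulMatrix b (w.coeff n) l j) := by
      intro l
      rw [Matrix.map_apply, coeff_C_mul, PM_coeff]; rfl
    rw [Finset.sum_congr rfl fun l _ => this l]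
    show _ = e i (w.coeff n) * e i (b j)
    rw [← map_mul]
    conv_rhs => rw [← b.sum_repr (w.coeff n * b j)]
    rw [map_sum]
    refine Finset.sum_congr rfl fun l _ => ?_
    rw [map_smul, Algebra.smul_def, mul_comm, Algebra.leftMulMatrix_apply, LinearMap.toMatrix_apply]
    rfl
  rw [DM_map, DM_def]
  have h2 := congrArg Matrix.det key
  rw [Matrix.det_mul, Matrix.det_mul, Matrix.det_diagonal, mul_comm] at h2
  exact mul_right_cancel₀ hP' h2

/-- the determinant for a quotient by an ideal -/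
def DQ (I : Ideal A) (w : A[X]) : k[X] :=
  open Classical in
  if h : Module.Free k (A ⧸ I) ∧ Module.Finite k (A ⧸ I) then
    haveI := h.1
    haveI := h.2
    DA k (w.map (Ideal.Quotient.mk I))
  else 1

theorem DQ_eq (I : Ideal A) [h1 : Module.Free k (A ⧸ I)] [h2 : Module.Finite k (A ⧸ I)] (w : A[X]) :
    DQ k I w = DA k (w.map (Ideal.Quotient.mk I)) := by
  rw [DQ, dif_pos ⟨h1, h2⟩]

end DA

section Ded

variable (k : Type*) {B : Type*} [Field k] [CommRing B] [IsDedekindDomain B] [Algebra k B]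

theorem DA_quot_mul (I J : Ideal B) (hI : I ≠ 0) (hJ : J ≠ 0) [Module.Finite k (B ⧸ I * J)]
    [Module.Finite k (B ⧸ I)] [Module.Finite k (B ⧸ J)] (w : B[X]) :
    DA k (w.map (Ideal.Quotient.mk (I * J))) =
      DA k (w.map (Ideal.Quotient.mk I)) * DA k (w.map (Ideal.Quotient.mk J)) := by
  classical
  obtain ⟨a, ha⟩ := IsDedekindDomain.exists_sup_span_eq (I := I * J) (J := I) Ideal.mul_le_left
    (mul_ne_zero hI hJ)
  have haI : a ∈ I := by
    rw [← ha]
    exact Ideal.mem_sup_right (Ideal.mem_span_singleton_self a)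
  have hle : J ≤ Submodule.comap (LinearMap.lsmul B B a) (I * J) := by
    intro x hx
    show a * x ∈ I * J
    exact Ideal.mul_mem_mul haI hx
  have key : ∀ x, a * x ∈ I * J → x ∈ J := by
    intro x hx
    have h1 : I * Ideal.span {x} ≤ I * J := by
      conv_lhs => rw [← ha]
      rw [Ideal.sup_mul, Ideal.span_singleton_mul_span_singleton]
      refine sup_le Ideal.mul_le_left ?_
      rw [Ideal.span_singleton_le_iff_mem]
      exact hx
    rw [← Ideal.dvd_iff_le, mul_dvd_mul_iff_left hI, Ideal.dvd_iff_le,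
      Ideal.span_singleton_le_iff_mem] at h1
    exact h1
  let i : (B ⧸ J) →ₗ[k] (B ⧸ I * J) :=
    (Submodule.mapQ J (I * J) (LinearMap.lsmul B B a) hle).restrictScalars k
  have hi : ∀ x : B, i (Ideal.Quotient.mk J x) = Ideal.Quotient.mk (I * J) (a * x) := fun x => rfl
  let π : (B ⧸ I * J) →ₗ[k] (B ⧸ I) := (Ideal.Quotient.factorₐ k Ideal.mul_le_left).toLinearMap
  have hπ : ∀ x : B, π (Ideal.Quotient.mk (I * J) x) = Ideal.Quotient.mk I x := fun x => rfl
  have h := DB_exact (k := k) (R := B) (Module.Free.chooseBasis k (B ⧸ I * J))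
    (Module.Free.chooseBasis k (B ⧸ J)) (Module.Free.chooseBasis k (B ⧸ I))
    ((Algebra.lmul k (B ⧸ I * J)).toRingHom.comp (Ideal.Quotient.mk (I * J)))
    ((Algebra.lmul k (B ⧸ J)).toRingHom.comp (Ideal.Quotient.mk J))
    ((Algebra.lmul k (B ⧸ I)).toRingHom.comp (Ideal.Quotient.mk I)) i π ?_ ?_ ?_ ?_ ?_ w
  · rw [mul_comm (DA k (w.map (Ideal.Quotient.mk I)))]
    rw [DA, DA, DA, ← DM_comp, ← DM_comp, ← DM_comp]
    exact h
  · rw [← LinearMap.ker_eq_bot, LinearMap.ker_eq_bot']
    intro v hv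
    obtain ⟨x, rfl⟩ := Ideal.Quotient.mk_surjective v
    rw [hi, Ideal.Quotient.eq_zero_iff_mem] at hv
    rw [Ideal.Quotient.eq_zero_iff_mem]
    exact key x hv
  · intro v
    obtain ⟨x, rfl⟩ := Ideal.Quotient.mk_surjective v
    exact ⟨Ideal.Quotient.mk (I * J) x, hπ x⟩
  · intro v
    obtain ⟨x, rfl⟩ := Ideal.Quotient.mk_surjective v
    rw [hπ, Ideal.Quotient.eq_zero_iff_mem]
    constructor
    · intro hx
      rw [← ha] at hx
      obtain ⟨y, hy, z, hz, rfl⟩ := Submodule.mem_sup.1 hx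
      obtain ⟨c, rfl⟩ := Ideal.mem_span_singleton'.1 hz
      refine ⟨Ideal.Quotient.mk J c, ?_⟩
      rw [hi, map_add, Ideal.Quotient.eq_zero_iff_mem.2 hy, zero_add, mul_comm a c]
    · rintro ⟨u, hu⟩
      obtain ⟨c, rfl⟩ := Ideal.Quotient.mk_surjective u
      rw [hi, Ideal.Quotient.eq] at hu
      have h3 : x = a * c - (a * c - x) := by ring
      rw [h3]
      exact I.sub_mem (I.mul_mem_right _ haI) (Ideal.mul_le_left hu)
  · intro x v
    obtain ⟨y, rfl⟩ := Ideal.Quotient.mk_surjective v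
    show i (Ideal.Quotient.mk J x * Ideal.Quotient.mk J y) =
      Ideal.Quotient.mk (I * J) x * i (Ideal.Quotient.mk J y)
    rw [← map_mul, hi, hi, ← map_mul]
    congr 1
    ring
  · intro x v
    obtain ⟨y, rfl⟩ := Ideal.Quotient.mk_surjective v
    rfl

omit [IsDedekindDomain B] in
theorem finite_of_le {I J : Ideal B} (h : I ≤ J) [Module.Finite k (B ⧸ I)] :
    Module.Finite k (B ⧸ J) := by
  refine Module.Finite.of_surjective (Ideal.Quotient.factorₐ k h).toLinearMap ?_
  intro v
  obtain ⟨x, rfl⟩ := Ideal.Quotient.mk_surjective v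
  exact ⟨Ideal.Quotient.mk I x, rfl⟩

theorem DQ_mul (I J : Ideal B) (hI : I ≠ 0) (hJ : J ≠ 0) [Module.Finite k (B ⧸ I * J)] (w : B[X]) :
    DQ k (I * J) w = DQ k I w * DQ k J w := by
  have h1 : Module.Finite k (B ⧸ I) := finite_of_le k (Ideal.mul_le_left : I * J ≤ I)
  have h2 : Module.Finite k (B ⧸ J) := finite_of_le k (Ideal.mul_le_right : I * J ≤ J)
  rw [DQ_eq, DQ_eq, DQ_eq, DA_quot_mul k I J hI hJ]

omit [IsDedekindDomain B] in
theorem DQ_top (w : B[X]) : DQ k (⊤ : Ideal B) w = 1 := by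
  classical
  have : Subsingleton (B ⧸ (⊤ : Ideal B)) := Ideal.Quotient.subsingleton_iff.2 rfl
  have : Module.Finite k (B ⧸ (⊤ : Ideal B)) := inferInstance
  rw [DQ_eq]
  rw [DA_eq k (Module.Basis.empty (B ⧸ (⊤ : Ideal B)) : Module.Basis (Fin 0) k _)]
  rw [DM, Matrix.det_isEmpty]

theorem DQ_pow (I : Ideal B) (hI : I ≠ 0) (n : ℕ) (h : Module.Finite k (B ⧸ I ^ n)) (w : B[X]) :
    DQ k (I ^ n) w = DQ k I w ^ n := by
  revert h
  induction n with
  | zero =>
    intro _
    rw [pow_zero, pow_zero, Ideal.one_eq_top, DQ_top]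
  | succ n ih =>
    intro h
    have h1 : Module.Finite k (B ⧸ I ^ n) := finite_of_le k (Ideal.pow_le_pow_right (Nat.le_succ n) : I ^ (n + 1) ≤ I ^ n)
    rw [pow_succ] at h
    rw [pow_succ, pow_succ, DQ_mul k _ _ (pow_ne_zero n hI) hI, ih h1]

theorem DQ_prod {ι : Type*} (s : Finset ι) (P : ι → Ideal B) (e : ι → ℕ) (hP : ∀ i ∈ s, P i ≠ 0)
    (h : Module.Finite k (B ⧸ ∏ i ∈ s, P i ^ e i)) (w : B[X]) :
    DQ k (∏ i ∈ s, P i ^ e i) w = ∏ i ∈ s, DQ k (P i) w ^ e i := by
  classical
  revert h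
  induction s using Finset.induction_on with
  | empty =>
    intro _
    rw [Finset.prod_empty, Finset.prod_empty, Ideal.one_eq_top, DQ_top]
  | insert j s hj ih =>
    intro h
    rw [Finset.prod_insert hj] at h
    have h1 : Module.Finite k (B ⧸ P j ^ e j) := finite_of_le k (Ideal.mul_le_left : P j ^ e j * ∏ i ∈ s, P i ^ e i ≤ _)
    have h2 : Module.Finite k (B ⧸ ∏ i ∈ s, P i ^ e i) := finite_of_le k (Ideal.mul_le_right : P j ^ e j * ∏ i ∈ s, P i ^ e i ≤ _)
    rw [Finset.prod_insert hj, Finset.prod_insert hj,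
      DQ_mul k _ _ (pow_ne_zero _ (hP j (Finset.mem_insert_self j s)))
        (Finset.prod_ne_zero_iff.2 fun i hi => pow_ne_zero _ (hP i (Finset.mem_insert_of_mem hi))),
      DQ_pow k _ (hP j (Finset.mem_insert_self j s)) _ h1,
      ih (fun i hi => hP i (Finset.mem_insert_of_mem hi)) h2]

end Ded

section Fin

theorem DA_fin {k κ : Type*} [Field k] [Finite k] [Field κ] [Algebra k κ] [FiniteDimensional k κ]
    (w : κ[X]) : (DA k w).map (algebraMap k κ) = ∏ i ∈ Finset.range (Module.finrank k κ),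
      w.sum fun j a => C (a ^ (Nat.card k) ^ i) * X ^ j := by
  classical
  have := Fintype.ofFinite k
  have : Finite κ := Module.finite_of_finite k
  let e : Fin (Module.finrank k κ) ≃ (κ →ₐ[k] κ) :=
    Equiv.ofBijective _ (FiniteField.bijective_frobeniusAlgHom_pow k κ)
  have he : ∀ i x, e i x = x ^ (Nat.card k) ^ (i : ℕ) := by
    intro i x
    show (FiniteField.frobeniusAlgHom k κ ^ (i : ℕ)) x = _
    rw [AlgHom.coe_pow, FiniteField.coe_frobeniusAlgHom, pow_iterate, Nat.card_eq_fintype_card]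
  rw [DA_emb (Module.finBasis k κ) e, ← Fin.prod_univ_eq_prod_range
    (fun i => w.sum fun j a => C (a ^ (Nat.card k) ^ i) * X ^ j)]
  refine Finset.prod_congr rfl fun i _ => ?_
  rw [Polynomial.map, eval₂_eq_sum]
  refine Finset.sum_congr rfl fun j _ => ?_
  simp only [RingHom.comp_apply]
  congr 2
  exact he i _

end Fin

end

end Pool.Agent.H134R3.ZT
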